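import Pool.Agent.ZFIter.Limit
import Pool.Agent.ZFIter.End

/-!
Finite support iterations and countable chain conditions without choice.

`ZFM M` says that `M` is a model of ZF. `IT M i` says that the iteration statement for the chain
condition number `i` holds in the model `M`, where `i = 0, 1, 2` stand for the first, second and
third chain condition, and `DC M` says that the principle of dependent choices holds in `M`.
The definitions are in `Pool.Agent.ZFIter.Defs`.
-/

universe u

namespace Pool.Agent.Results.MP_021b2d_lc.IterationZF

open Pool.Agent.H78.ZF Pool.Agent.ZFIter

/-- Every model of ZF with dependent choices satisfies the iteration statement for the third chain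
condition; and there is a model of ZF in which the iteration statements for all three chain
conditions fail. -/
theorem result :
    (∀ (M : Type u) [ZFM M], DC M → IT M 2) ∧
      ∃ (M : Type) (_ : ZFM M), ∀ i : Fin 3, ¬ IT M i :=
  ⟨fun _ _ h => it3_of_dc h, exists_model_not_it⟩

end Pool.Agent.Results.MP_021b2d_lc.IterationZF
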